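import Pool.Agent.W525.CB.Stm

/-!
# The differentials of the coordinates of a chart of `X` form a basis (part BAS of project CB)
-/

namespace Pool.Agent.W935.CB.BAS

open Pool.Agent.W525.CB

/-- the elements whose differential lies in `E` form a subfield -/
noncomputable def cf {L : Type} [Field L] (E : Submodule L (Ω[L⁄ℤ])) : Subfield L where
  carrier := {z | KaehlerDifferential.D ℤ L z ∈ E}
  mul_mem' := by
    intro a b ha hb
    simp only [Set.mem_ofPred_eq, Derivation.leibniz] at *
    exact E.add_mem (E.smul_mem _ hb) (E.smul_mem _ ha)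
  one_mem' := by simp
  add_mem' := by
    intro a b ha hb
    simp only [Set.mem_ofPred_eq, map_add] at *
    exact E.add_mem ha hb
  zero_mem' := by simp
  neg_mem' := by
    intro a ha
    simp only [Set.mem_ofPred_eq, map_neg] at *
    exact E.neg_mem ha
  inv_mem' := by
    intro a ha
    simp only [Set.mem_ofPred_eq, Derivation.leibniz_inv] at *
    exact E.smul_mem _ ha

lemma mem_cf {L : Type} [Field L] {E : Submodule L (Ω[L⁄ℤ])} {z : L} :
    z ∈ cf E ↔ KaehlerDifferential.D ℤ L z ∈ E := Iff.rfl

/-- the differential of a scalar vanishes -/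
lemma D_scal (k : Type) [Field k] [IsAlgClosed k] (p : ℕ) (hp : 0 < p) [CharP k p] (L : Type)
    [Field L] [Algebra k L] (c : k) : KaehlerDifferential.D ℤ L (algebraMap k L c) = 0 := by
  obtain ⟨b, hb⟩ := IsAlgClosed.exists_pow_nat_eq c hp
  have : CharP L p := charP_of_injective_algebraMap (algebraMap k L).injective p
  rw [← hb, map_pow, Derivation.leibniz_pow, ← Nat.cast_smul_eq_nsmul L, CharP.cast_eq_zero,
    zero_smul]

/-- A module of differentials is spanned by `N`, if the field is generated over `k` by elements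
with differentials in `N`. -/
lemma span_of_gen (k : Type) [Field k] [IsAlgClosed k] (p : ℕ) (hp : 0 < p) [CharP k p] (L : Type)
    [Field L] [Algebra k L] (N : Submodule L (Ω[L⁄ℤ])) (T : Set L)
    (hT : ∀ z ∈ T, KaehlerDifferential.D ℤ L z ∈ N) (hgen : IntermediateField.adjoin k T = ⊤) :
    N = ⊤ := by
  rw [eq_top_iff, ← KaehlerDifferential.span_range_derivation ℤ L, Submodule.span_le]
  rintro _ ⟨z, rfl⟩
  let F : IntermediateField k L := (cf N).toIntermediateField (fun c => by
    rw [mem_cf, D_scal k p hp]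
    exact N.zero_mem)
  have h1 : IntermediateField.adjoin k T ≤ F := by
    rw [IntermediateField.adjoin_le_iff]
    intro z hz
    exact hT z hz
  have h2 : z ∈ F := h1 (by rw [hgen]; trivial)
  exact h2

section

variable {n : ℕ} {L : Type} [Field L] (x y : Fin (n + 3) → L)

lemma uu_self (i : Fin (n + 3)) : uu x y i i = 0 := by
  unfold uu
  ring

end

theorem main : S_DIM → S_REL → S_DIF → S_BAS := by
  intro hDIM hREL hDIF n k _ _ _ _ L _ _ x y hn hdat htr σ hgen
  have hp : 0 < n + 2 := by omega
  have hchar : CharP L (n + 2) := charP_of_injective_algebraMap (algebraMap k L).injective (n + 2)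
  classical
  set N : Submodule L (Ω[L⁄ℤ]) := Submodule.span L (Set.range (cfam x y σ)) with hN
  obtain ⟨hw, -, -, -⟩ := hREL n L x y hn hdat σ
  obtain ⟨-, hd1, hd2⟩ := hDIF n L x y hn hdat σ
  have hs0 : ss x σ 0 = 1 := by
    unfold ss
    exact div_self (hdat.nx _)
  have ht0 : tt x y σ 0 = 0 := by
    unfold tt
    rw [uu_self, zero_div]
  have hne : ∀ i j : Fin (n + 3), i ≠ j → uu x y (σ i) (σ j) ≠ 0 := fun i j hij =>
    hdat.nu _ _ (fun h => hij (σ.injective h))
  have ht1 : tt x y σ 1 = 1 := by
    unfold tt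
    exact div_self (hne 0 1 (Fin.succ_ne_zero (0 : Fin (n + 2))).symm)
  have htt : ∀ i : Fin (n + 1), KaehlerDifferential.D ℤ L (tt x y σ i.succ.succ) ∈ N := fun i =>
    Submodule.subset_span ⟨Sum.inl i, rfl⟩
  have hss3 : ∀ i : Fin n, KaehlerDifferential.D ℤ L (ss x σ i.succ.succ.succ) ∈ N := fun i =>
    Submodule.subset_span ⟨Sum.inr i, rfl⟩
  have hw2 : ww x y σ (0 : Fin (n + 1)).succ.succ ≠ 0 := by
    rw [hw]
    refine div_ne_zero (hne _ _ ?_) (hne _ _ ?_)
    · intro h
      have h' : (0 : Fin (n + 2)).succ = (0 : Fin (n + 1)).succ.succ := h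
      exact Fin.succ_ne_zero (0 : Fin (n + 1)) (Fin.succ_injective _ h').symm
    · exact Fin.succ_ne_zero (0 : Fin (n + 2))
  have hss2 : KaehlerDifferential.D ℤ L (ss x σ (0 : Fin (n + 1)).succ.succ) ∈ N := by
    rw [Fin.sum_univ_succ] at hd2
    have h3 : ww x y σ (0 : Fin (n + 1)).succ.succ ^ (n + 2) •
        KaehlerDifferential.D ℤ L (ss x σ (0 : Fin (n + 1)).succ.succ) ∈ N := by
      rw [eq_neg_of_add_eq_zero_left hd2]
      exact N.neg_mem (Submodule.sum_mem _ fun i _ => N.smul_mem _ (hss3 i))
    exact (Submodule.smul_mem_iff _ (pow_ne_zero _ hw2)).1 h3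
  have hssi : ∀ i : Fin (n + 1), KaehlerDifferential.D ℤ L (ss x σ i.succ.succ) ∈ N := by
    intro i
    refine Fin.cases hss2 hss3 i
  have hss1 : KaehlerDifferential.D ℤ L (ss x σ 1) ∈ N := by
    rw [hd1]
    exact N.neg_mem (Submodule.sum_mem _ fun i _ => N.smul_mem _ (hssi i))
  have htop : N = ⊤ := by
    refine span_of_gen k (n + 2) hp L N _ ?_ hgen
    rintro z (⟨i, rfl⟩ | ⟨i, rfl⟩)
    · refine Fin.cases ?_ (fun i => ?_) i
      · rw [hs0, Derivation.map_one_eq_zero]
        exact N.zero_mem
      · refine Fin.cases ?_ (fun i => ?_) i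
        · exact hss1
        · exact hssi i
    · refine Fin.cases ?_ (fun i => ?_) i
      · rw [ht0, map_zero]
        exact N.zero_mem
      · refine Fin.cases ?_ (fun i => ?_) i
        · show KaehlerDifferential.D ℤ L (tt x y σ 1) ∈ N
          rw [ht1, Derivation.map_one_eq_zero]
          exact N.zero_mem
        · exact htt i
  have hli : LinearIndependent L (cfam x y σ) := by
    refine hDIM k (n + 2) L ((Set.finite_range (ss x σ)).union
      (Set.finite_range (tt x y σ))).toFinset ?_ (Fin (n + 1) ⊕ Fin n) (cfam x y σ) ?_ htop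
    · rw [← hgen]
      congr 1
      exact Set.Finite.coe_toFinset _
    · refine le_trans (le_of_eq ?_) htr
      congr 1
      simp only [Fintype.card_sum, Fintype.card_fin]
      omega
  exact ⟨Module.Basis.mk hli htop.ge, fun i => Module.Basis.mk_apply hli htop.ge i⟩

end Pool.Agent.W935.CB.BAS
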